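import Pool.Agent.helper92.RC.Spec

/-!
# MP_cf13c7_al, row QFR: the free group of rank two is not in the class
-/

set_option autoImplicit false

namespace Pool.Agent.helper92.RC

open scoped commutatorElement

universe u

theorem QFR_countable : Countable (FreeGroup (ULift.{u} Bool)) :=
  (Quot.mk_surjective (r := FreeGroup.Red.Step (α := ULift.{u} Bool))).countable

theorem QFR_ne : (FreeGroup.of (ULift.up.{u} true)) * FreeGroup.of (ULift.up.{u} false) ≠
    FreeGroup.of (ULift.up.{u} false) * FreeGroup.of (ULift.up.{u} true) := by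
  intro h
  have h2 := congrArg (FreeGroup.lift (fun b : ULift.{u} Bool =>
    if b.down then Equiv.swap (0 : Fin 3) 1 else Equiv.swap (1 : Fin 3) 2)) h
  simp only [map_mul, FreeGroup.lift_apply_of] at h2
  revert h2
  simp only [if_true, Bool.false_eq_true, if_false]
  decide

/-- **Row QFR** -/
theorem QFR : TOW_stmt.{u} → QFR_stmt.{u} := by
  intro hT hC
  obtain ⟨α, hα⟩ := hC
  have := QFR_countable.{u}
  refine hT (FreeGroup (ULift.{u} Bool)) ?_
  refine
    { I := PUnit
      G := fun _ => FreeGroup (ULift.{u} Bool)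
      gG := fun _ => inferInstance
      al := fun _ => α
      hQ := fun _ => hα
      C := fun _ => ⊤
      d := 0
      hC := ⟨rfl, fun r => ⟨le_rfl, fun _ _ _ _ => Subgroup.mem_top _⟩⟩
      f := (Pi.evalMonoidHom (fun _ : PUnit.{u + 1} => FreeGroup (ULift.{u} Bool)) PUnit.unit).comp
        (Subgroup.subtype ⊤)
      hf := ?_ }
  exact ⟨_, ⟨⟨fun _ => FreeGroup.of (ULift.up true), Subgroup.mem_top _⟩, rfl⟩,
    _, ⟨⟨fun _ => FreeGroup.of (ULift.up false), Subgroup.mem_top _⟩, rfl⟩, QFR_ne⟩

end Pool.Agent.helper92.RC
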